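import Pool.Agent.H90.RG.Targets2

/-!
# Partial regularity of stationary harmonic maps, part G: the theorem from small energy regularity
-/

set_option autoImplicit false

namespace Pool.Agent.H16.RG

open MeasureTheory Metric Set Filter Topology Pool.Agent.H87.SN Pool.Agent.H90.RG

theorem pf_THE (hE : T_EPS) (hF : T_FNA) : T_THE := by
  intro hA n m k N A hn hN hs
  exact hF m N A hN.compact hs (fun d _ => hE d m k N A hN hs) hA n hn

end Pool.Agent.H16.RG
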